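import Pool.Agent.H32.NcA

open Pointwise Pool.Agent.H32.Nc

theorem Pool.Agent.Results.MP_19cc1b_al.Counter.result :
    ∃ G A B C : Subgroup (Equiv.Perm (Fin 8)),
      (G : Set (Equiv.Perm (Fin 8))) = A * B * C ∧
      (A : Set (Equiv.Perm (Fin 8))) * B = B * A ∧ (A : Set (Equiv.Perm (Fin 8))) * C = C * A ∧
      (B : Set (Equiv.Perm (Fin 8))) * C = C * B ∧
      Edge G 2 7 ∧ ¬ Edge (A ⊔ B) 2 7 ∧ ¬ Edge (A ⊔ C) 2 7 ∧ ¬ Edge (B ⊔ C) 2 7 := by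
  refine ⟨sg LA okA ⊔ sg LB okB ⊔ sg LC okC, sg LA okA, sg LB okB, sg LC okC, ?_,
    perm_eq pAB.1, perm_eq pAC.1, perm_eq pBC.1, ⟨_, S_le, schmidt⟩, pAB.2, pAC.2, pBC.2⟩
  rw [coe_sup', coe_sup' pAB.1]
  rw [coe_sup' pAB.1, ← mul_assoc, ← perm_eq pAC.1, mul_assoc, ← perm_eq pBC.1, mul_assoc]
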